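import Mathlib
import Pool.Agent.H16.PSys

set_option autoImplicit false

namespace Pool.Agent.Results.MP_11d8b4_co.No

open H16.PSys

theorem result : ∃ (H : SimpleGraph (Fin 7)) (P : Fin 7 → Fin 7 → List (Fin 7)),
    H.Connected ∧ PathSystem H P ∧ Consistent P ∧ (∃ w : Sym2 (Fin 7) → ℝ, Induces H w P) ∧
    ¬ ∃ w : Sym2 (Fin 7) → ℝ, (∀ e ∈ H.edgeSet, 0 < w e) ∧ Induces H w P :=
  H16.PSys.main

end Pool.Agent.Results.MP_11d8b4_co.No
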